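import Pool.Agent.H45.UZ.TarF

/-! # FR2: invariance of `Sf` -/

set_option linter.unusedVariables false

open Ordinal Order Set
open scoped ZFSet

namespace SE.UZ

open SF

theorem frg_self (X : V) : Frg X X := by
  intro j hj x h
  have h1 : j.rank < X.rank := ZFSet.rank_lt_of_mem hj
  have h2 : (tg j).rank ≤ j.rank :=
    (TT.rank_fst_le _).trans ((TT.rank_snd_le _).trans (TT.rank_lG_le _))
  rw [h] at h2
  exact lt_irrefl _ (h1.trans ((rank_lt_pair_left _ _).trans_le h2))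

theorem kct_ne {l : ℕ} {e : V} : kct l e ≠ nS (l + 1) := by
  intro h
  unfold kct at h
  by_cases hc : ∃ n : ℕ, 3 ≤ n ∧ n ≤ l ∧ e = nS n
  · rw [sel_pos hc] at h
    obtain ⟨n, -, hn, rfl⟩ := hc
    have := nS_inj.1 h
    omega
  · rw [sel_neg hc] at h
    have := nS_inj.1 h
    omega

theorem fr2_fwd (hQSE : T_QSE) (hQI1 : T_QI1) (hQI3 : T_QI3) (hQI4 : T_QI4)
    {D : Cx} {κ : V} (hA : Amb D κ) {b : BS} (hb : b.Ok D κ) {π B ρ' : V} (hO : b.Of D B)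
    (hi : Isl D (b.l + 1) b.S π (b.u B) ρ') {G a x : V} (hG : D.Gn (b.u B) G)
    (h : ∃ B' G', b.Of D B' ∧ b.Xt D B G B' G' ∧ b.Ss D B' G' a x) :
    ∃ B' G', b.Of D B' ∧ b.Xt D (b.T π B) (gi D π ρ' G) B' G' ∧ b.Ss D B' G' a x := by
  have zN : ZFm D.N := hA.ok.zfc.toZFCm.toZFm
  have csN : ∀ E ∈ b.Ob, D.N (b.u E) ∧ Cld D.L (b.u E) ∧ Tr (b.u E) := by
    intro E hE
    have h := hb.cs E hE
    exact ⟨zN.trans _ hA.ok.hN _ h.h, h.c, fun i hi => (h.c i hi).2⟩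
  have sl : Sl b.l b.S := fun e he => ⟨(hb.sl e he).1, by have := (hb.sl e he).2; omega⟩
  have sl1 : Sl (b.l + 1) b.S := fun e he => ⟨(hb.sl e he).1, by have := (hb.sl e he).2; omega⟩
  obtain ⟨B', G', hO', hX, hS⟩ := h
  obtain ⟨-, oB', sBB'⟩ := hb.leO B B' hX.le
  obtain ⟨nB, cB, tB⟩ := csN B hO.1
  obtain ⟨nB', cB', tB'⟩ := csN B' oB'
  -- `π` is an isomorphism of level `l`
  obtain ⟨⟨-, -, him, -, -, -, -⟩, -, hinvj, hlow, -⟩ := hQI1 D hA.ok _ _ π _ _ sl1 hi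
  have hil : Isl D b.l b.S π (b.u B) ρ' := hlow b.l b.S (Nat.le_succ _) (fun k hk => hk)
  obtain ⟨tr1, tr2, tr3, tr4⟩ := hb.tr B hO.1 π ρ' hil
  -- the extension
  obtain ⟨π1, hπ1⟩ : ∃ π1, π1 = cqm b.l D.L ρ' D.H π (b.u B) (b.u B') := ⟨_, rfl⟩
  obtain ⟨ρ1, hρ1⟩ : ∃ ρ1, ρ1 = im π1 (b.u B') := ⟨_, rfl⟩
  obtain ⟨i1, s1, r1, a1, e1, f1⟩ := hQI4 D hA.ok b.l b.S π (b.u B) ρ' (b.u B') ρ' D.H hb.l3 sl
    hil (hb.cs B' oB') sBB' (fun i hi e he hk => hb.rk B' oB' i hi e he hk) hi.c'.h (frg_self ρ')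
    (Or.inr rfl) π1 ρ1 hπ1 hρ1
  obtain ⟨⟨-, -, him1, -, hii, -, iinv⟩, -, hinvj1, -, hres⟩ :=
    hQI1 D hA.ok _ _ π1 _ _ sl i1
  obtain ⟨u1, u2, u3, u4⟩ := hb.tr B' oB' π1 ρ1 i1
  have hle : b.Le (b.T π B) (b.T π1 B') := by
    have := u4 B hX.le
    rwa [r1] at this
  -- the image of `u B`
  have himB : im π1 (b.u B) = ρ' := by
    obtain ⟨j1, -⟩ := hres (b.u B) nB sBB' tB
      (fun i hi e he hk => hb.rk B hO.1 i hi e he hk)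
    rw [r1] at j1
    obtain ⟨⟨-, -, him2, -⟩, -⟩ := hQI1 D hA.ok _ _ π _ _ sl j1
    rw [← him2, him]
  refine ⟨b.T π1 B', gi D π1 ρ1 G', ⟨u1, ?_⟩, ⟨hle, ?_, ?_⟩, ?_⟩
  · rw [u2]
    intro i hi' k hk' hki hkk G2 hG2
    -- `k` is in `ρ'`
    have hkρ : k ∈ ρ' := by
      by_contra hk0
      obtain ⟨k0, hk1, hk2, rfl⟩ := e1 k hk' hk0
      obtain ⟨-, -, g3, -⟩ := f1 k0 hk1 hk2
      exact kct_ne (g3 ▸ hkk)
    obtain ⟨hk0, hk0e⟩ := hinvj k hkρ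
    have hkd0 : kd (app (inv π) k) = nS (b.l + 1) :=
      (hi.k _ hk0 (b.l + 1) (by have := hb.l3; omega) le_rfl).2 (by rw [hk0e]; exact hkk)
    have hk1e : app π1 (app (inv π) k) = k := by rw [a1 _ hk0, hk0e]
    obtain ⟨hi0, hi0e⟩ := hinvj1 i hi'
    have hkdi : kd (app (inv π1) i) = nS b.l :=
      (i1.k _ hi0 b.l hb.l3 le_rfl).2 (by rw [hi0e]; exact hki)
    -- the filter
    obtain ⟨v1, -, v3, -⟩ := hQI3 D hA.ok _ _ (inv π1) _ _ sl iinv G2 hG2 _ rfl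
    rw [hii] at v3
    obtain ⟨-, -, -, -, w5, -⟩ := hQI3 D hA.ok _ _ π1 _ _ sl i1 _ v1 G2 v3.symm
    have x1 := (w5 _ hi0).2.1
    have x2 := (w5 _ (sBB' hk0)).2.2
    rw [hi0e] at x1
    rw [hk1e] at x2
    rw [x1, x2]
    exact hO'.2 _ hi0 _ (sBB' hk0) hkdi hkd0 _ v1
  · rw [u2]
    exact (hQI3 D hA.ok _ _ π1 _ _ sl i1 G' hX.g _ rfl).1
  · obtain ⟨-, -, -, -, -, w6⟩ := hQI3 D hA.ok _ _ π1 _ _ sl i1 G' hX.g _ rfl
    obtain ⟨-, y2, -⟩ := w6 (b.u B) nB sBB' tB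
    rw [himB, r1, hX.r] at y2
    rw [tr2]
    exact y2
  · obtain ⟨-, -, -, z4⟩ := hQSE D κ hA b hb B' oB' (b.u B') nB' cB' (fun _ h => h) G' hX.g
    exact ((z4 π1 ρ1 i1 hX.g).1 a x).1 hS

theorem pf_FR2 (hFR1 : T_FR1) (hQSE : T_QSE) (hQI1 : T_QI1) (hQI3 : T_QI3) (hQI4 : T_QI4) :
    T_FR2 := by
  intro D κ hA b hb π B ρ' hO hi G hG a x
  have sl1 : Sl (b.l + 1) b.S := fun e he => ⟨(hb.sl e he).1, by have := (hb.sl e he).2; omega⟩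
  obtain ⟨⟨-, -, -, -, hii, -, iinv⟩, -, -, hlow, -⟩ := hQI1 D hA.ok _ _ π _ _ sl1 hi
  have hil : Isl D b.l b.S π (b.u B) ρ' := hlow b.l b.S (Nat.le_succ _) (fun k hk => hk)
  obtain ⟨tr1, tr2, tr3, tr4⟩ := hb.tr B hO.1 π ρ' hil
  obtain ⟨v1, -, v3, -⟩ := hQI3 D hA.ok _ _ π _ _ sl1 hi G hG _ rfl
  constructor
  · intro h1 h2
    apply h1
    have hO2 : b.Of D (b.T π B) := (hFR1 D κ hA b hb).2.2.2.1 π B ρ' hO hi
    have i2 : Isl D (b.l + 1) b.S (inv π) (b.u (b.T π B)) (b.u B) := by rw [tr2]; exact iinv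
    have g2 : D.Gn (b.u (b.T π B)) (gi D π ρ' G) := by rw [tr2]; exact v1
    have := fr2_fwd hQSE hQI1 hQI3 hQI4 hA hb hO2 i2 g2 h2
    rwa [tr3, v3] at this
  · intro h1 h2
    exact h1 (fr2_fwd hQSE hQI1 hQI3 hQI4 hA hb hO hi hG h2)

end SE.UZ
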