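import Pool.Agent.H45.UZ.TarF

/-! # FR5: absoluteness of `Sf` -/

set_option linter.unusedVariables false

open Ordinal Order Set
open scoped ZFSet

namespace SE.UZ

open SF

namespace FR5aux

theorem insN {M : V → Prop} (zM : ZFm M) {x y : V} (hx : M x) (hy : M y) : M (insert x y) :=
  (Tm.ins (Tm.var 0) (Tm.var 1)).1 M zM (cons x (fun _ => y)) (In.cons (fun _ => hy) hx)

theorem pairN {M : V → Prop} (zM : ZFm M) {x y : V} (hx : M x) (hy : M y) :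
    M (ZFSet.pair x y) :=
  (Tm.pair (Tm.var 0) (Tm.var 1)).1 M zM (cons x (fun _ => y)) (In.cons (fun _ => hy) hx)

theorem empN {M : V → Prop} (zM : ZFm M) {x : V} (hx : M x) : M (∅ : V) :=
  (Tm.empty).1 M zM (fun _ => x) (fun _ => hx)

theorem nSN {M : V → Prop} (zM : ZFm M) {x : V} (hx : M x) (n : ℕ) : M (nS n) :=
  (Tm.nS n).1 M zM (fun _ => x) (fun _ => hx)

theorem ne01 : nS 0 ≠ nS 1 := fun h => by
  have := nS_inj.1 h
  omega

theorem mem1 {v : V} : v ∈ nS 1 ↔ v = nS 0 := by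
  rw [nS_succ, ZFSet.mem_insert_iff]
  constructor
  · rintro (h | h)
    · exact h
    · rw [nS_zero] at h
      exact absurd h (ZFSet.notMem_empty _)
  · exact Or.inl

theorem mem2 {v : V} : v ∈ nS 2 ↔ v = nS 1 ∨ v = nS 0 := by
  rw [nS_succ, ZFSet.mem_insert_iff, mem1]

/-- the function `0 ↦ a`, `1 ↦ b` -/
noncomputable def tw (a b : V) : V :=
  insert (ZFSet.pair (nS 0) a) (insert (ZFSet.pair (nS 1) b) ∅)

theorem svl_tw (a b : V) : Svl (tw a b) := by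
  intro x y z h1 h2
  unfold tw at h1 h2
  rw [ZFSet.mem_insert_iff, ZFSet.mem_insert_iff] at h1 h2
  rcases h1 with h1 | h1 | h1 <;> rcases h2 with h2 | h2 | h2
  · obtain ⟨-, rfl⟩ := ZFSet.pair_inj.1 h1
    obtain ⟨-, rfl⟩ := ZFSet.pair_inj.1 h2
    rfl
  · obtain ⟨h3, -⟩ := ZFSet.pair_inj.1 h1
    obtain ⟨h4, -⟩ := ZFSet.pair_inj.1 h2
    exact absurd (h3.symm.trans h4) ne01
  · exact absurd h2 (ZFSet.notMem_empty _)
  · obtain ⟨h3, -⟩ := ZFSet.pair_inj.1 h1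
    obtain ⟨h4, -⟩ := ZFSet.pair_inj.1 h2
    exact absurd (h4.symm.trans h3) ne01
  · obtain ⟨-, rfl⟩ := ZFSet.pair_inj.1 h1
    obtain ⟨-, rfl⟩ := ZFSet.pair_inj.1 h2
    rfl
  · exact absurd h2 (ZFSet.notMem_empty _)
  · exact absurd h1 (ZFSet.notMem_empty _)
  · exact absurd h1 (ZFSet.notMem_empty _)
  · exact absurd h1 (ZFSet.notMem_empty _)

theorem app_tw0 (a b : V) : app (tw a b) (nS 0) = a :=
  app_eq (svl_tw a b) (ZFSet.mem_insert_iff.2 (Or.inl rfl))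

theorem app_tw1 (a b : V) : app (tw a b) (nS 1) = b :=
  app_eq (svl_tw a b) (ZFSet.mem_insert_iff.2 (Or.inr (ZFSet.mem_insert_iff.2 (Or.inl rfl))))

theorem twN {M : V → Prop} (zM : ZFm M) {a b : V} (ha : M a) (hb : M b) : M (tw a b) :=
  insN zM (pairN zM (nSN zM ha 0) ha) (insN zM (pairN zM (nSN zM ha 1) hb) (empN zM ha))

end FR5aux

open FR5aux in
theorem pf_FR5 (hFR1 : T_FR1) (hQSE : T_QSE) (hQC1 : T_QC1) (hQC2 : T_QC2) (hQI1 : T_QI1)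
    (hQI3 : T_QI3) (hQRN : T_QRN) (hPDE : T_PDE) (hPDB : T_PDB) (hBO : T_BO) (hBK : T_BK)
    (hBL : T_BL) (hBR : T_BR) (hBC : T_BC) : T_FR5 := by
  intro D κ hA b hb C B hCB hO G hG a x ha hx
  have zN : ZFm D.N := hA.ok.zfc.toZFCm.toZFm
  have csN : ∀ E ∈ b.Ob, D.N (b.u E) ∧ Cld D.L (b.u E) ∧ Tr (b.u E) := by
    intro E hE
    have h := hb.cs E hE
    exact ⟨zN.trans _ hA.ok.hN _ h.h, h.c, fun i hi => (h.c i hi).2⟩
  have sl : Sl b.l b.S := fun e he => ⟨(hb.sl e he).1, by have := (hb.sl e he).2; omega⟩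
  obtain ⟨oC, oB, sCB⟩ := hb.leO C B hCB
  obtain ⟨nC, cC, tC⟩ := csN C oC
  obtain ⟨nB, cB, tB⟩ := csN B oB
  constructor
  · -- easy direction
    intro h1 h2
    apply h1
    obtain ⟨B', G', hO', hX, hS⟩ := h2
    obtain ⟨-, oB', sBB'⟩ := hb.leO B B' hX.le
    obtain ⟨nB', cB', tB'⟩ := csN B' oB'
    refine ⟨B', G', hO', ⟨hb.trn C B B' hCB hX.le, hX.g, ?_⟩, hS⟩
    obtain ⟨-, hbl⟩ := hBL D hA.ok (b.u B') G' nB' cB' hX.g
    obtain ⟨-, -, -, -, -, -, g7⟩ := hbl (b.u B) nB sBB' tB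
    rw [← g7 (b.u C) sCB, hX.r]
  · intro h1 h2
    apply h1
    obtain ⟨B', G', hO', hX, hS⟩ := h2
    obtain ⟨-, oB', sCB'⟩ := hb.leO C B' hX.le
    obtain ⟨nB', cB', tB'⟩ := csN B' oB'
    have NB' : D.N B' := zN.trans _ hb.nO _ oB'
    obtain ⟨-, -, -, brp, -, -, -, -, -, brn⟩ := hBR D hA.ok
    -- the copy
    obtain ⟨R, P, E', nR, nE', hR, hP, hE'⟩ := hQC1 D κ hA b hb C (b.u B) (nS 1) (tw B' B') D.H
      oC (hb.cs B oB).h (brn 1) (twN zN NB' NB') (fun v hv => by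
        rw [mem1.1 hv, app_tw0]
        exact hX.le) (Or.inr rfl)
    have h01 : nS 0 ∈ nS 1 := mem1.2 rfl
    have hR0 : app R (nS 0) = b.u B' := by rw [hR _ h01, app_tw0]
    obtain ⟨π, hπ⟩ : ∃ π, π = app P (nS 0) := ⟨_, rfl⟩
    obtain ⟨B2, hB2⟩ : ∃ B2, B2 = b.T π B' := ⟨_, rfl⟩
    obtain ⟨e1, e2, e3, e4⟩ := hE' _ h01
    rw [app_tw0, ← hπ, ← hB2] at e1
    rw [e1] at e2 e3 e4
    rw [app_tw0, ← hπ] at e4
    have hi := hP.i _ h01
    rw [hR0, ← hπ, ← e4] at hi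
    have hid : Idn π (b.u C) := by
      have := hP.d _ h01
      rwa [← hπ] at this
    have hz := hP.z _ h01
    have hk := hP.k _ h01
    rw [hR0, ← hπ] at hz hk
    have hO2 : b.Of D B2 := by
      rw [hB2]
      exact (hFR1 D κ hA b hb).2.2.2.2 π C B' _ hO' hX.le hi hid
        (fun i hi' hi0 => (hk i hi' hi0).1)
    obtain ⟨nB2, cB2, tB2⟩ := csN B2 e3
    have hinter : b.u B2 ∩ b.u B = b.u C := by
      ext j
      rw [ZFSet.mem_inter]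
      constructor
      · rintro ⟨hj2, hjB⟩
        rw [e4] at hj2
        obtain ⟨i, hi', rfl⟩ := mem_imS.1 hj2
        by_cases hi0 : i ∈ b.u C
        · rw [hid i hi0]
          exact hi0
        · exact absurd hjB (hz i hi' hi0).2
      · intro hj
        exact ⟨(hb.leO C B2 e2).2.2 hj, sCB hj⟩
    have sCB2 : b.u C ⊆ b.u B2 := (hb.leO C B2 e2).2.2
    obtain ⟨G2, hG2⟩ : ∃ G2, G2 = gi D π (b.u B2) G' := ⟨_, rfl⟩
    obtain ⟨v1, -, -, -, -, v6⟩ := hQI3 D hA.ok _ _ π _ _ sl hi G' hX.g G2 hG2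
    obtain ⟨-, -, -, -, v7⟩ := v6 (b.u C) nC sCB' tC
    have hG2C : gs G2 (b.u C) = gs G (b.u C) := by rw [(v7 hid).1, hX.r]
    have hS2 : b.Ss D B2 G2 a x := by
      obtain ⟨-, -, -, z4⟩ := hQSE D κ hA b hb B' oB' (b.u B') nB' cB' (fun _ h => h) G' hX.g
      rw [hG2, hB2]
      rw [hB2] at hi
      exact ((z4 π _ hi hX.g).1 a x).1 hS
    -- the bound of `B` and `B2`
    have NB : D.N B := zN.trans _ hb.nO _ oB
    have NB2 : D.N B2 := zN.trans _ hb.nO _ e3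
    have hAg : b.Ag D (nS 2) (tw B B2) := by
      refine ⟨twN zN NB NB2, brn 2, ?_, ?_⟩
      · intro v hv
        rcases mem2.1 hv with rfl | rfl
        · rw [app_tw1]; exact e3
        · rw [app_tw0]; exact oB
      · have hself : ∀ X : V, X ∩ X = X := fun X => by
          ext j
          rw [ZFSet.mem_inter]
          exact ⟨fun h => h.1, fun h => ⟨h, h⟩⟩
        have hsymm : b.u B ∩ b.u B2 = b.u C := by
          rw [← hinter]
          ext j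
          rw [ZFSet.mem_inter, ZFSet.mem_inter, and_comm]
        intro v hv w hw
        rcases mem2.1 hv with rfl | rfl <;> rcases mem2.1 hw with rfl | rfl
        · rw [app_tw1]
          exact ⟨B2, hb.rfl B2 e3, hb.rfl B2 e3, (hself _).symm⟩
        · rw [app_tw1, app_tw0]
          exact ⟨C, e2, hCB, hinter.symm⟩
        · rw [app_tw1, app_tw0]
          exact ⟨C, hCB, e2, hsymm.symm⟩
        · rw [app_tw0]
          exact ⟨B, hb.rfl B oB, hb.rfl B oB, (hself _).symm⟩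
    obtain ⟨B3, oB3, hr3, hk3⟩ := hb.bd (nS 2) (tw B B2) hAg (b.u B) (hb.cs B oB).h
    have hle3 : ∀ v ∈ nS 2, b.Le (app (tw B B2) v) B3 := fun v hv => (hb.rc _ _ (hr3 v hv)).1
    have hO3 : b.Of D B3 := by
      refine (hFR1 D κ hA b hb).2.1 (nS 2) (tw B B2) hAg ?_ B3 oB3 hle3
        (fun k hk hk' => (hk3 k hk hk').1)
      intro v hv
      rcases mem2.1 hv with rfl | rfl
      · rw [app_tw1]; exact hO2
      · rw [app_tw0]; exact hO
    have hB3 : b.Le B B3 := by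
      have := hle3 (nS 0) (mem2.2 (Or.inr rfl))
      rwa [app_tw0] at this
    have hB23 : b.Le B2 B3 := by
      have := hle3 (nS 1) (mem2.2 (Or.inl rfl))
      rwa [app_tw1] at this
    obtain ⟨nB3, cB3, tB3⟩ := csN B3 oB3
    have s3 := (hb.leO B B3 hB3).2.2
    have s23 := (hb.leO B2 B3 hB23).2.2
    -- names
    obtain ⟨q1, -⟩ := hQRN D hA.ok (b.u B) G (b.u C) nB cB hG nC sCB tC
    obtain ⟨Ya, nYa, mYa, eYa⟩ := (q1 a).1 ha
    obtain ⟨Yx, nYx, mYx, eYx⟩ := (q1 x).1 hx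
    obtain ⟨-, -, -, -, -, bo6⟩ := hBO D hA.ok (b.u B2) nB2 cB2
    obtain ⟨Za, nZa, mZa, eZa⟩ := bo6 (b.u C) Ya nC sCB2 tC nYa mYa
    obtain ⟨Zx, nZx, mZx, eZx⟩ := bo6 (b.u C) Yx nC sCB2 tC nYx mYx
    -- the value of a name over `u C` depends only on the restriction of the filter
    have hval : ∀ ρ H, D.N ρ → Cld D.L ρ → D.Gn ρ H → b.u C ⊆ ρ → ∀ Y, D.N Y →
        Nam D.L (b.u C) Y → ev (gs H (b.u C)) Y = ev H Y := by
      intro ρ H nρ cρ hH hs Y hY mY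
      exact ((hBK D hA.ok ρ H nρ cρ hH).1 (b.u C) Y nC hs tC hY mY).2.2.2.2.2 (b.u C)
        (fun _ h => h)
    have ha2 : ev G2 Za = a := by
      rw [eZa G2 v1, ← hval _ G2 nB2 cB2 v1 sCB2 Ya nYa mYa, hG2C,
        hval _ G nB cB hG sCB Ya nYa mYa, eYa]
    have hx2 : ev G2 Zx = x := by
      rw [eZx G2 v1, ← hval _ G2 nB2 cB2 v1 sCB2 Yx nYx mYx, hG2C,
        hval _ G nB cB hG sCB Yx nYx mYx, eYx]
    -- a condition which forces the fact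
    have zero_N : D.N ((0 : Ordinal.{0}).toZFSet) := by
      have : (0 : Ordinal.{0}).toZFSet = ∅ := by simp
      rw [this]
      exact empN zN nB
    have hHis : His D (b.u B2) ∅ 0 :=
      ⟨empN zN nB, fun z hz => absurd hz (ZFSet.notMem_empty _)⟩
    have hdec := (hPDE D κ hA b hb 0 zero_N B2 e3 ∅ 0 hHis Za Zx nZa nZx mZa mZx).2.2.2.1
    obtain ⟨-, -, -, hforce, -⟩ := hPDB D hA.ok (b.u B2) nB2 cB2 _ hdec
    obtain ⟨p, hpG2, hpP, hp⟩ := hforce G2 v1 (by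
      rw [ha2, hx2]
      exact hS2)
    -- amalgamation
    obtain ⟨-, hbl2⟩ := hBL D hA.ok (b.u B2) G2 nB2 cB2 v1
    obtain ⟨-, -, -, -, g5, -, -⟩ := hbl2 (b.u C) nC sCB2 tC
    obtain ⟨-, hblB⟩ := hBL D hA.ok (b.u B) G nB cB hG
    obtain ⟨-, k2, -⟩ := hblB (b.u C) nC sCB tC
    obtain ⟨G3, hG3, hr, hp3⟩ := hQC2 D hA.ok (b.u C) (b.u B) (b.u B2) (b.u B3) G p nB nB2 nB3
      cB3 s3 s23 tB tB2 (fun j hj => by
        rw [← hinter, ZFSet.mem_inter]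
        rw [ZFSet.mem_inter] at hj
        exact ⟨hj.2, hj.1⟩) hG hpP (k2 (by
          have := g5 p hpG2
          rwa [hG2C] at this))
    obtain ⟨-, hbl3⟩ := hBL D hA.ok (b.u B3) G3 nB3 cB3 hG3
    obtain ⟨m1, m2, -, m4, -, -, m7⟩ := hbl3 (b.u B2) nB2 s23 tB2
    obtain ⟨-, -, -, -, -, -, m7'⟩ := hbl3 (b.u B) nB s3 tB
    have hpdm : dm p ⊆ b.u B2 := ((hBC.2.2.2.1 D.L (b.u B2) p).1 hpP).2.1
    have hSs := hp (gs G3 (b.u B2)) m1 ((m4 p).2 ⟨hp3, hpdm⟩)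
    have hGC : gs (gs G3 (b.u B2)) (b.u C) = gs G (b.u C) := by
      rw [m7 (b.u C) sCB2, ← m7' (b.u C) sCB, hr]
    have ha3 : ev (gs G3 (b.u B2)) Za = a := by
      rw [eZa _ m1, ← hval _ _ nB2 cB2 m1 sCB2 Ya nYa mYa, hGC,
        hval _ G nB cB hG sCB Ya nYa mYa, eYa]
    have hx3 : ev (gs G3 (b.u B2)) Zx = x := by
      rw [eZx _ m1, ← hval _ _ nB2 cB2 m1 sCB2 Yx nYx mYx, hGC,
        hval _ G nB cB hG sCB Yx nYx mYx, eYx]
    rw [ha3, hx3] at hSs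
    obtain ⟨w1, -⟩ := hQSE D κ hA b hb B2 e3 (b.u B3) nB3 cB3 s23 G3 hG3
    have hSs2 : b.Ss D B2 G3 a x := (w1 a x).2.2.1.2 hSs
    obtain ⟨-, -, y3, -⟩ := hQSE D κ hA b hb B3 oB3 (b.u B3) nB3 cB3 (fun _ h => h) G3 hG3
    exact ⟨B3, G3, hO3, ⟨hB3, hG3, hr⟩, (y3 B2 hB23).2.1 a x hx.2 hSs2⟩

end SE.UZ
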