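import Pool.Agent.H45.UZ.TarF

/-! # FRm: monotonicity of F1, F2 -/

set_option linter.unusedVariables false

open Ordinal Order Set
open scoped ZFSet

namespace SE.UZ

open SF

theorem pf_FRm (hFR5 : T_FR5) (hQRN : T_QRN) (hBL : T_BL) : T_FRm := by
  intro D κ hA b hb C0 C B h0C hC hCB hF1 hF2
  have zN : ZFm D.N := hA.ok.zfc.toZFCm.toZFm
  obtain ⟨o0, oC, s0C⟩ := hb.leO C0 C h0C
  obtain ⟨-, oB, sCB⟩ := hb.leO C B hCB
  have csN : ∀ E ∈ b.Ob, D.N (b.u E) ∧ Cld D.L (b.u E) ∧ Tr (b.u E) := by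
    intro E hE
    have h := hb.cs E hE
    exact ⟨zN.trans _ hA.ok.hN _ h.h, h.c, fun i hi => (h.c i hi).2⟩
  obtain ⟨n0, c0, t0⟩ := csN C0 o0
  obtain ⟨nC, cC, tC⟩ := csN C oC
  obtain ⟨nB, cB, tB⟩ := csN B oB
  have s0B : b.u C0 ⊆ b.u B := fun i hi => sCB (s0C hi)
  have mono : ∀ G, D.Gn (b.u B) G → ∀ x, RR D (b.u C0) G x → RR D (b.u C) G x := by
    intro G hG x hx
    obtain ⟨-, -, -, -, -, -, -, q8, -⟩ := hQRN D hA.ok (b.u B) G (b.u C0) nB cB hG n0 s0B t0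
    exact q8 (b.u C) nC s0C sCB tC x hx
  constructor
  · intro G hG a x ha hx hS
    refine hF1 G hG a x (mono G hG a ha) (mono G hG x hx) ?_
    obtain ⟨-, hbl⟩ := hBL D hA.ok (b.u B) G nB cB hG
    obtain ⟨g1, -, -, -, -, -, g7⟩ := hbl (b.u C) nC sCB tC
    have e := g7 (b.u C0) s0C
    have h5 := hFR5 D κ hA b hb C0 C h0C hC (gs G (b.u C)) g1 a x
      ⟨by rw [e]; exact ha.1, ha.2⟩ ⟨by rw [e]; exact hx.1, hx.2⟩
    rw [e] at h5
    exact fun h => hS (h5.2 h)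
  · intro G hG v hv hk
    refine hF2 G hG v (mono G hG v hv) fun k hkC hkd he => ?_
    obtain ⟨-, -, -, -, -, -, -, -, -, -, -, q12, -⟩ :=
      hQRN D hA.ok (b.u B) G (b.u C0) nB cB hG n0 s0B t0
    exact hk k (q12 k (sCB hkC) (he ▸ hv)) hkd he

end SE.UZ
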