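import Pool.Agent.H45.UZ.TarP

/-! # LL: all lemmas at all stages -/

set_option linter.unusedVariables false

open Ordinal Order Set
open scoped ZFSet

namespace SE.UZ

open SF

theorem pf_LL (hV : T_LV) (hA : T_LA) (hI : T_LI) (hP : T_LP) (hF : T_LF) (hK : T_LK) : T_LL := by
  intro D κ b σ
  induction σ using WellFoundedLT.induction with
  | ind σ ih =>
    intro c
    have zN : ZFm D.N := c.am.ok.zfc.toZFCm.toZFm
    have hc : ∀ e < σ, Ctx D κ b e := fun e he => ⟨c.am, c.ok,
      zN.trans _ c.s _ (Ordinal.toZFSet_mem_toZFSet_iff.2 he)⟩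
    have ih' : ∀ e < σ, b.PV D e ∧ b.PA D e ∧ b.PI D e ∧ b.PP D e ∧ b.PF D e ∧ b.PK D e :=
      fun e he => ih e he (hc e he)
    have v : b.PV D σ := hV D κ b σ c fun e he => (ih' e he).1
    have v' : ∀ e ≤ σ, b.PV D e := by
      intro e he
      rcases he.lt_or_eq with h | rfl
      · exact (ih' e h).1
      · exact v
    have a : b.PA D σ := hA D κ b σ c (fun e he => (ih' e he).2.2.1)
      fun e he => (ih' e he).2.2.2.2.2
    have p : b.PP D σ := hP D κ b σ c v' a
    have f : b.PF D σ := hF D κ b σ c fun e he => (ih' e he).2.2.1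
    refine ⟨v, a, hI D κ b σ c v' a, p, f, hK D κ b σ c p ?_⟩
    intro e he
    rcases he.lt_or_eq with h | rfl
    · exact (ih' e h).2.2.2.2.1
    · exact f

end SE.UZ
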