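import Pool.Agent.H45.UZ.TarP

/-! # LV: (V) at stage `σ` -/

set_option linter.unusedVariables false

open Ordinal Order Set
open scoped ZFSet

namespace SE.UZ

open SF

namespace LVaux

/-- the hypotheses -/
structure Hy : Prop where
  pwe : T_PWE
  psj : T_PSJ
  poa : T_POA
  pot : T_POT
  pha : T_PHA
  phb : T_PHB
  pw2 : T_PW2
  qi1 : T_QI1
  qi3 : T_QI3
  qi4 : T_QI4
  qrn : T_QRN
  bl : T_BL

variable {D : Cx} {κ : V} {b : BS} {σ : Ordinal.{0}}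

theorem obf (c : Ctx D κ b σ) {E : V} (hE : E ∈ b.Ob) :
    D.N (b.u E) ∧ Cld D.L (b.u E) ∧ Tr (b.u E) ∧ Vws b.S (b.u E) := by
  have zN : ZFm D.N := c.am.ok.zfc.toZFCm.toZFm
  have h := c.ok.cs E hE
  exact ⟨zN.trans _ c.am.ok.hN _ h.h, h.c, fun i hi => (h.c i hi).2,
    fun i hi e he hk => c.ok.rk E hE i hi e he hk⟩

theorem slf (c : Ctx D κ b σ) : Sl b.l b.S :=
  fun e he => ⟨(c.ok.sl e he).1, by have := (c.ok.sl e he).2; omega⟩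

theorem surjG (H : Hy) (c : Ctx D κ b σ) {π ρ ρ' : V} (hi : Isl D b.l b.S π ρ ρ') {G' : V}
    (hG' : D.Gn ρ' G') : ∃ G, D.Gn ρ G ∧ gi D π ρ' G = G' := by
  obtain ⟨⟨-, -, -, -, hii, -, iinv⟩, -⟩ := H.qi1 D c.am.ok _ _ π _ _ (slf c) hi
  obtain ⟨v1, -, v3, -⟩ := H.qi3 D c.am.ok _ _ (inv π) _ _ (slf c) iinv G' hG' _ rfl
  rw [hii] at v3
  exact ⟨_, v1, v3⟩

/-- transport of reals -/
theorem rrs (H : Hy) (c : Ctx D κ b σ) {π ρ ρ' : V} (hi : Isl D b.l b.S π ρ ρ') {G : V}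
    (hG : D.Gn ρ G) {s : V} (ns : D.N s) (hs : s ⊆ ρ) (ts : Tr s) (x : V) :
    RR D (im π s) (gi D π ρ' G) x ↔ RR D s G x := by
  obtain ⟨-, -, -, -, -, w6⟩ := H.qi3 D c.am.ok _ _ π _ _ (slf c) hi G hG _ rfl
  exact (w6 s ns hs ts).2.2.1 x

/-- the coding labels of the image -/
theorem preim (H : Hy) (c : Ctx D κ b σ) {π B ρ' : V} (hSI : b.SI D σ π B ρ') {j' : V}
    (hj' : j' ∈ ρ') (hc' : b.Co j') : ∃ j ∈ b.u B, b.Co j ∧ app π j = j' ∧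
      vw j' = im π (vw j) ∧ b.sj D (b.Wd D) σ (tm j') = b.sj D (b.Wd D) σ (tm j) ∧
      vw j ⊆ b.u B ∧ D.N (vw j) ∧ Tr (vw j) ∧ Vws b.S (vw j) := by
  obtain ⟨-, -, hbk, -, -⟩ := H.qi1 D c.am.ok _ _ π _ _ (slf c) hSI.i
  obtain ⟨k1, k2⟩ := hbk j' hj'
  have cj : b.Co (app (inv π) j') :=
    (hSI.i.k _ k1 b.l c.ok.l3 le_rfl).2 (by rw [k2]; exact hc')
  obtain ⟨v1, v2⟩ := hSI.v _ k1 cj
  rw [k2] at v1 v2
  obtain ⟨⟨A, a1, a2, a3⟩, a4, -, a6, a7, -, -⟩ := (H.poa D κ c.am b c.ok B hSI.o).2.2 _ k1 cj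
  refine ⟨_, k1, cj, k2, v1, v2, a4, a6, a7, ?_⟩
  rw [← a2]
  exact (obf c (c.ok.leO A B a1).1).2.2.2

theorem pv_w (H : Hy) (c : Ctx D κ b σ) (ih : ∀ e < σ, b.PV D e) :
    ∀ π B ρ' h, b.Wd D σ B h → b.SI D σ π B ρ' →
    (∀ e < σ, b.Ls D (b.Wd D) e → ∀ G, D.Gn ρ' G → ∀ X y, Ent (mvh π h) G X y e →
      ¬ b.Pt (b.T π B) G X) → b.Wd D σ (b.T π B) (mvh π h) := by
  intro π B ρ' h hW hSI hPt
  have hIw := (H.pwe b D σ B h).1 hW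
  have oB := hIw.wo.o
  obtain ⟨nB, cB, tB, vB⟩ := obf c oB.o
  have sl := slf c
  have hi := hSI.i
  obtain ⟨p1, p2, p3⟩ := H.pot D κ c.am b c.ok π B ρ' oB hi (fun j hj hc => (hSI.v j hj hc).1)
  obtain ⟨-, p5, -⟩ := p3 σ hSI
  obtain ⟨⟨-, -, him, -, -, -, -⟩, -⟩ := H.qi1 D c.am.ok _ _ π _ _ sl hi
  obtain ⟨b1, b2, b3, b4, b5, -⟩ := H.phb D c.am.ok _ _ π _ _ sl hi h σ hIw.wo.hs
  subst p2
  -- the cut histories
  obtain ⟨-, ha2, -⟩ := H.pha D c.am.ok (b.u B) (b.u B) h σ nB cB nB cB (fun _ h => h)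
    hIw.wo.hs
  have nB' : D.N (b.u (b.T π B)) := (obf c p1.o).1
  have cB' : Cld D.L (b.u (b.T π B)) := (obf c p1.o).2.1
  obtain ⟨-, ha2', -⟩ := H.pha D c.am.ok (b.u (b.T π B)) (b.u (b.T π B)) (mvh π h) σ nB' cB' nB'
    cB' (fun _ h => h) b1
  have hcut : ∀ e < σ, b.Wd D e B (hr h e) ∧ b.SI D e π B (b.u (b.T π B)) ∧
      b.Wd D e (b.T π B) (mvh π (hr h e)) ∧ ∀ G, D.Gn (b.u B) G → ∀ X y d,
        (Ent (mvh π (hr h e)) (gi D π (b.u (b.T π B)) G) X y d ↔ Ent (hr h e) G X y d) := by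
    intro e he
    have w1 := (H.pw2 D κ c.am b c.ok).1 σ e B h he.le hW
    refine ⟨w1, p5 e he.le, (ih e he).w π B _ (hr h e) w1 (p5 e he.le) ?_, ?_⟩
    · intro d hd hLd G hG X y hE
      rw [← b3 e] at hE
      have hE' := ((ha2' e).2.2.2.2 G X y d).1 hE
      exact hPt d (hd.trans he) hLd G hG X y hE'.1
    · exact (H.phb D c.am.ok _ _ π _ _ sl hi (hr h e) σ (ha2 e).1).2.2.2.1
  have hRR : ∀ G, D.Gn (b.u B) G → ∀ X, (RR D (b.u (b.T π B)) (gi D π (b.u (b.T π B)) G) X ↔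
      RR D (b.u B) G X) := by
    intro G hG X
    have := rrs H c hi hG nB (fun _ h => h) tB X
    rwa [him] at this
  refine (H.pwe b D σ _ _).2 ⟨⟨p1, b1, ?_⟩, ?_, ?_, ?_, ?_, ?_⟩
  · intro G' hG' X y y' e e' h1 h2
    obtain ⟨G, hG, rfl⟩ := surjG H c hi hG'
    rw [b4 G hG] at h1 h2
    exact hIw.wo.f G hG X y y' e e' h1 h2
  · intro j' hj' hc'
    obtain ⟨j, hj, hc, -, e1, e2, s1, s2, s3, s4⟩ := preim H c hSI hj' hc'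
    rw [e1, e2]
    exact ((b5 (vw j) s2 s1 s3 s4 _).1).2 (hIw.w0 j hj hc)
  · intro j' hj' hc' G' hG' X y e hE
    obtain ⟨j, hj, hc, e0, e1, e2, s1, s2, s3, s4⟩ := preim H c hSI hj' hc'
    obtain ⟨G, hG, rfl⟩ := surjG H c hi hG'
    rw [b4 G hG] at hE
    obtain ⟨-, -, -, -, w5, -⟩ := H.qi3 D c.am.ok _ _ π _ _ sl hi G hG _ rfl
    rw [← e0, (w5 j hj).2.1]
    exact hIw.w1 j hj hc G hG X y e hE
  · intro e he hL G' hG' X hX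
    obtain ⟨G, hG, rfl⟩ := surjG H c hi hG'
    obtain ⟨c1, c2, c3, c4⟩ := hcut e he
    rw [b3 e]
    have t := ((ih e he).t π B _ (hr h e) c1 c2 c3 G hG X).2.2
    have hd : Dcc (mvh π (hr h e)) (gi D π (b.u (b.T π B)) G) X ↔ Dcc (hr h e) G X := by
      unfold Dcc
      exact exists_congr fun y => exists_congr fun d => c4 G hG X y d
    rw [hd, ← t, ← hIw.w2 e he hL G hG X ((hRR G hG X).1 hX)]
    exact exists_congr fun y => b4 G hG X y e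
  · intro e he G' hG' X y hE
    obtain ⟨G, hG, rfl⟩ := surjG H c hi hG'
    obtain ⟨c1, c2, c3, c4⟩ := hcut e he
    rw [b3 e]
    have t := ((ih e he).t π B _ (hr h e) c1 c2 c3 G hG X).1 y
    rw [b4 G hG] at hE
    exact fun hK => hIw.w2' e he G hG X y hE (t.2 hK)
  · intro e he hL G' hG' X y hE
    refine ⟨hPt e he hL G' hG' X y hE, ?_⟩
    intro j' hj' hc' ht hS
    obtain ⟨j, hj, hc, e0, e1, e2, s1, s2, s3, s4⟩ := preim H c hSI hj' hc'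
    obtain ⟨G, hG, rfl⟩ := surjG H c hi hG'
    rw [b4 G hG] at hE
    obtain ⟨-, -, -, -, -, -, -, -, -, -, q11, q12⟩ := H.psj b D (b.Wd D)
    have h1 := q11 σ e (tm j') hL ht
    rw [e2] at h1
    refine (hIw.w3 e he hL G hG X y hE).2 j hj hc (q12 σ e (tm j) hL he h1) ?_
    obtain ⟨r1, r2⟩ := hS
    rw [e1] at r1 r2
    exact ⟨(rrs H c hi hG s2 s1 s3 X).1 r1, (rrs H c hi hG s2 s1 s3 y).1 r2⟩

theorem frg_self (X : V) : Frg X X := by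
  intro j hj x h
  have h1 : j.rank < X.rank := ZFSet.rank_lt_of_mem hj
  have h2 : (tg j).rank ≤ j.rank :=
    (TT.rank_fst_le _).trans ((TT.rank_snd_le _).trans (TT.rank_lG_le _))
  rw [h] at h2
  exact lt_irrefl _ (h1.trans ((rank_lt_pair_left _ _).trans_le h2))

theorem kct_ne2 {l : ℕ} {e : V} : kct l e ≠ nS (l + 2) := by
  intro h
  unfold kct at h
  by_cases hc : ∃ n : ℕ, 3 ≤ n ∧ n ≤ l ∧ e = nS n
  · rw [sel_pos hc] at h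
    obtain ⟨n, -, hn, rfl⟩ := hc
    have := nS_inj.1 h
    omega
  · rw [sel_neg hc] at h
    have := nS_inj.1 h
    omega

theorem im_congr {f g s : V} (h : ∀ i ∈ s, app f i = app g i) : im f s = im g s := by
  unfold im
  ext y
  rw [mem_imS, mem_imS]
  exact exists_congr fun x => and_congr_right fun hx => by rw [h x hx]

/-- the extension of an isomorphism to an extension of a world -/
theorem ext (H : Hy) (c : Ctx D κ b σ) (ih : ∀ e < σ, b.PV D e) {π B ρ' h : V}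
    (hW : b.Wd D σ B h) (hSI : b.SI D σ π B ρ') (hW' : b.Wd D σ (b.T π B) (mvh π h)) {G : V}
    (hG : D.Gn (b.u B) G) {B1 h1 G1 : V} (hE : b.Ew D (b.Wd D) σ B h G B1 h1 G1) :
    ∃ π1 ρ1, b.SI D σ π1 B1 ρ1 ∧ b.Wd D σ (b.T π1 B1) (mvh π1 h1) ∧
      b.Ew D (b.Wd D) σ (b.T π B) (mvh π h) (gi D π ρ' G) (b.T π1 B1) (mvh π1 h1)
        (gi D π1 ρ1 G1) ∧ b.u (b.T π1 B1) = ρ1 ∧
      (∀ y, RR D (b.u (b.T π B)) (gi D π1 ρ1 G1) y ↔ RR D (b.u B) G1 y) ∧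
      (∀ y, RR D (b.u (b.T π1 B1)) (gi D π1 ρ1 G1) y ↔ RR D (b.u B1) G1 y) := by
  have hIw := (H.pwe b D σ B h).1 hW
  have hIw1 := (H.pwe b D σ B1 h1).1 hE.w
  have hIw' := (H.pwe b D σ _ _).1 hW'
  have oB := hIw.wo.o
  have oB1 := hIw1.wo.o
  obtain ⟨nB, cB, tB, vB⟩ := obf c oB.o
  obtain ⟨nB1, cB1, tB1, vB1⟩ := obf c oB1.o
  have sl := slf c
  have hi := hSI.i
  have sBB1 := (c.ok.leO B B1 hE.le.le).2.2
  obtain ⟨p1, p2, -⟩ := H.pot D κ c.am b c.ok π B ρ' oB hi (fun j hj hc => (hSI.v j hj hc).1)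
  obtain ⟨⟨-, -, him, -, -, -, -⟩, -⟩ := H.qi1 D c.am.ok _ _ π _ _ sl hi
  -- the extension
  obtain ⟨π1, hπ1⟩ : ∃ π1, π1 = cqm b.l D.L ρ' D.H π (b.u B) (b.u B1) := ⟨_, rfl⟩
  obtain ⟨ρ1, hρ1⟩ : ∃ ρ1, ρ1 = im π1 (b.u B1) := ⟨_, rfl⟩
  obtain ⟨i1, s1, r1, a1, e1, f1⟩ := H.qi4 D c.am.ok b.l b.S π (b.u B) ρ' (b.u B1) ρ' D.H
    c.ok.l3 sl hi (c.ok.cs B1 oB1.o) sBB1 vB1 hi.c'.h (frg_self ρ') (Or.inr rfl) π1 ρ1 hπ1 hρ1
  have himB : im π1 (b.u B) = ρ' := by rw [im_congr a1, him]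
  have hSI1 : b.SI D σ π1 B1 ρ1 := by
    refine ⟨i1, oB1, fun j hj hc => ?_⟩
    obtain ⟨-, w4, -⟩ := (H.poa D κ c.am b c.ok B1 oB1).2.2 j hj hc
    by_cases hjB : j ∈ b.u B
    · obtain ⟨v1, v2⟩ := hSI.v j hjB hc
      obtain ⟨-, w4', -⟩ := (H.poa D κ c.am b c.ok B oB).2.2 j hjB hc
      rw [a1 j hjB]
      exact ⟨by rw [v1]; exact (im_congr fun i hi => a1 i (w4' hi)).symm, v2⟩
    · obtain ⟨-, -, -, g4, g5⟩ := f1 j hj hjB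
      refine ⟨g5 w4, ?_⟩
      have htm : tm j ∈ D.H := by
        have hjH : j ∈ D.H := c.am.ok.zfH.trans _ (c.ok.cs B1 oB1.o).h j hj
        exact (Tm.fst (Tm.snd (Tm.snd (Tm.fst (Tm.snd (Tm.var 0)))))).1 (· ∈ D.H)
          c.am.ok.zfH (fun _ => j) (fun _ => hjH)
      have : tct b.l D.H (kd j) (tm j) = tm j := sel_neg fun h => h.2 htm
      rw [g4, this]
  obtain ⟨q1, q2, -⟩ := H.pot D κ c.am b c.ok π1 B1 ρ1 oB1 i1 (fun j hj hc => (hSI1.v j hj hc).1)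
  have nρ' : D.N ρ' := by rw [← p2]; exact (obf c p1.o).1
  have cρ' : Cld D.L ρ' := by rw [← p2]; exact (obf c p1.o).2.1
  have tρ' : Tr ρ' := by rw [← p2]; exact (obf c p1.o).2.2.1
  have nρ1 : D.N ρ1 := by rw [← q2]; exact (obf c q1.o).1
  have cρ1 : Cld D.L ρ1 := by rw [← q2]; exact (obf c q1.o).2.1
  -- the face relation
  obtain ⟨u1, u2, u3, u4⟩ := c.ok.tr B1 oB1.o π1 ρ1 i1
  have hle : b.Le (b.T π B) (b.T π1 B1) := by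
    have := u4 B hE.le.le
    rwa [r1] at this
  obtain ⟨b1, -, -, b4, b5, -⟩ := H.phb D c.am.ok _ _ π1 _ _ sl i1 h1 σ hIw1.wo.hs
  obtain ⟨-, b6⟩ := b5 (b.u B) nB sBB1 tB vB σ
  obtain ⟨b7, b8⟩ := b6 h hIw.wo.hs
  rw [r1] at b7
  have hLWe := b8 (fun G hG X hX y e => hE.le.e G hG X hX y e)
  rw [himB, ← b7] at hLWe
  have hLW : b.LW D σ (b.T π B) (mvh π h) (b.T π1 B1) (mvh π1 h1) := by
    refine ⟨hle, ?_⟩
    rw [u2, p2]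
    exact hLWe
  -- the image is a world
  have hW1 : b.Wd D σ (b.T π1 B1) (mvh π1 h1) := by
    refine pv_w H c ih π1 B1 ρ1 h1 hE.w hSI1 ?_
    intro e he hL G' hG' X y hEn hP
    obtain ⟨i, hi1, hi2, hi3⟩ := hP
    rw [u2] at hi1
    have hiρ : i ∈ ρ' := by
      by_contra hi0
      obtain ⟨i0, hk1, hk2, rfl⟩ := e1 i hi1 hi0
      obtain ⟨-, -, g3, -⟩ := f1 i0 hk1 hk2
      exact kct_ne2 (g3 ▸ hi2)
    obtain ⟨-, -, -, -, z5, -, z7, -, -, z10, -, -, -, -, z15⟩ :=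
      H.qrn D c.am.ok ρ1 G' ρ' nρ1 cρ1 hG' nρ' s1 tρ'
    have hXr : RR D ρ' G' X := by
      rw [hi3]
      exact z5 _ _ (z7 1) (z10 i hiρ).2.2
    have hEn' := (hLWe G' hG' X hXr y e).2 ⟨hEn, he⟩
    obtain ⟨-, hbl⟩ := H.bl D c.am.ok ρ1 G' nρ1 cρ1 hG'
    obtain ⟨g1, -⟩ := hbl ρ' nρ' s1 tρ'
    obtain ⟨hpa, -⟩ := H.pha D c.am.ok ρ' ρ1 (mvh π h) σ nρ' cρ' nρ1 cρ1 s1 (by
      rw [← p2]; exact hIw'.wo.hs)
    have hEn2 := ((hpa G' hG').1 X y e).1.1 hEn'.1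
    refine (hIw'.w3 e he hL (gs G' ρ') (by rw [p2]; exact g1) X y hEn2).1 ⟨i, ?_, hi2, ?_⟩
    · rw [p2]; exact hiρ
    · rw [(z15 i hiρ).1]; exact hi3
  obtain ⟨v1, -, -, -, -, v6⟩ := H.qi3 D c.am.ok _ _ π1 _ _ sl i1 G1 hE.g _ rfl
  refine ⟨π1, ρ1, hSI1, hW1, ⟨hW1, hLW, ?_, ?_⟩, u2, ?_, ?_⟩
  · rw [u2]
    exact v1
  · obtain ⟨-, y2, -⟩ := v6 (b.u B) nB sBB1 tB
    rw [himB, r1, hE.r] at y2
    rw [p2]
    exact y2
  · intro y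
    have := rrs H c i1 hE.g nB sBB1 tB y
    rw [himB] at this
    rw [p2]
    exact this
  · intro y
    have := rrs H c i1 hE.g nB1 (fun _ h => h) tB1 y
    rw [← hρ1] at this
    rw [u2]
    exact this

/-- transport of `Kil` -/
theorem kil (H : Hy) (c : Ctx D κ b σ) {π B ρ' : V} (hB : B ∈ b.Ob)
    (hi : Isl D b.l b.S π (b.u B) ρ') {G : V} (hG : D.Gn (b.u B) G) {X y : V}
    (hK : b.Kil D B G X y) : b.Kil D (b.T π B) (gi D π ρ' G) X y := by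
  obtain ⟨nB, cB, tB, vB⟩ := obf c hB
  obtain ⟨a, x, ha, hx, hX, v, hv, hS⟩ := hK
  obtain ⟨-, u2, -, -⟩ := c.ok.tr B hB π ρ' hi
  obtain ⟨⟨-, -, him, -, -, -, -⟩, -⟩ := H.qi1 D c.am.ok _ _ π _ _ (slf c) hi
  refine ⟨a, x, ha, hx, hX, v, ?_, (c.ok.trS B hB π ρ' hi G hG _ _).1 hS⟩
  have := rrs H c hi hG nB (fun _ h => h) tB v
  rw [him] at this
  rw [u2]
  exact this.2 hv

theorem kb_fwd (H : Hy) (c : Ctx D κ b σ) (ih : ∀ e < σ, b.PV D e) {π B ρ' h : V}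
    (hW : b.Wd D σ B h) (hSI : b.SI D σ π B ρ') (hW' : b.Wd D σ (b.T π B) (mvh π h)) {G : V}
    (hG : D.Gn (b.u B) G) {X y : V} (hK : b.Kb D (b.Wd D) σ B h G X y) :
    b.Kb D (b.Wd D) σ (b.T π B) (mvh π h) (gi D π ρ' G) X y := by
  obtain ⟨B1, h1, G1, hE, hKil⟩ := hK
  obtain ⟨π1, ρ1, hSI1, hW1, hE1, -⟩ := ext H c ih hW hSI hW' hG hE
  exact ⟨_, _, _, hE1, kil H c hSI1.o.o hSI1.i hE.g hKil⟩

/-- the inverse -/
theorem invf (H : Hy) (c : Ctx D κ b σ) {π B ρ' h : V} (hW : b.Wd D σ B h)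
    (hSI : b.SI D σ π B ρ') {G : V} (hG : D.Gn (b.u B) G) :
    b.SI D σ (inv π) (b.T π B) (b.u B) ∧ b.T (inv π) (b.T π B) = B ∧
      mvh (inv π) (mvh π h) = h ∧ D.Gn (b.u (b.T π B)) (gi D π ρ' G) ∧
      gi D (inv π) (b.u B) (gi D π ρ' G) = G := by
  have hIw := (H.pwe b D σ B h).1 hW
  obtain ⟨-, p2, p3⟩ := H.pot D κ c.am b c.ok π B ρ' hIw.wo.o hSI.i
    (fun j hj hc => (hSI.v j hj hc).1)
  obtain ⟨p4, -, -⟩ := p3 σ hSI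
  obtain ⟨-, -, u3, -⟩ := c.ok.tr B hSI.o.o π ρ' hSI.i
  obtain ⟨-, b2, -⟩ := H.phb D c.am.ok _ _ π _ _ (slf c) hSI.i h σ hIw.wo.hs
  obtain ⟨v1, -, v3, -⟩ := H.qi3 D c.am.ok _ _ π _ _ (slf c) hSI.i G hG _ rfl
  exact ⟨p4, u3, b2, by rw [p2]; exact v1, v3⟩

theorem kb_iff (H : Hy) (c : Ctx D κ b σ) (ih : ∀ e < σ, b.PV D e) {π B ρ' h : V}
    (hW : b.Wd D σ B h) (hSI : b.SI D σ π B ρ') (hW' : b.Wd D σ (b.T π B) (mvh π h)) {G : V}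
    (hG : D.Gn (b.u B) G) (X y : V) : b.Kb D (b.Wd D) σ B h G X y ↔
    b.Kb D (b.Wd D) σ (b.T π B) (mvh π h) (gi D π ρ' G) X y := by
  refine ⟨kb_fwd H c ih hW hSI hW' hG, fun hK => ?_⟩
  obtain ⟨p4, u3, b2, v1, v3⟩ := invf H c hW hSI hG
  have := kb_fwd H c ih hW' p4 (by rw [u3, b2]; exact hW) v1 hK
  rwa [u3, b2, v3] at this

theorem nn_fwd (H : Hy) (c : Ctx D κ b σ) (ih : ∀ e < σ, b.PV D e) {π B ρ' h : V}
    (hW : b.Wd D σ B h) (hSI : b.SI D σ π B ρ') (hW' : b.Wd D σ (b.T π B) (mvh π h)) {G : V}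
    (hG : D.Gn (b.u B) G) {X : V} (hN : b.Nn D (b.Wd D) σ B h G X) :
    b.Nn D (b.Wd D) σ (b.T π B) (mvh π h) (gi D π ρ' G) X := by
  obtain ⟨B1, h1, G1, y, hE, hR1, hR2, hK⟩ := hN
  obtain ⟨π1, ρ1, hSI1, hW1, hE1, -, r1, r2⟩ := ext H c ih hW hSI hW' hG hE
  refine ⟨_, _, _, y, hE1, (r2 y).2 hR1, fun h => hR2 ((r1 y).1 h), fun h => hK ?_⟩
  exact (kb_iff H c ih hE.w hSI1 hW1 hE.g X y).2 h

theorem nn_iff (H : Hy) (c : Ctx D κ b σ) (ih : ∀ e < σ, b.PV D e) {π B ρ' h : V}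
    (hW : b.Wd D σ B h) (hSI : b.SI D σ π B ρ') (hW' : b.Wd D σ (b.T π B) (mvh π h)) {G : V}
    (hG : D.Gn (b.u B) G) (X : V) : b.Nn D (b.Wd D) σ B h G X ↔
    b.Nn D (b.Wd D) σ (b.T π B) (mvh π h) (gi D π ρ' G) X := by
  refine ⟨nn_fwd H c ih hW hSI hW' hG, fun hK => ?_⟩
  obtain ⟨p4, u3, b2, v1, v3⟩ := invf H c hW hSI hG
  have := nn_fwd H c ih hW' p4 (by rw [u3, b2]; exact hW) v1 hK
  rwa [u3, b2, v3] at this

end LVaux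

open LVaux in
theorem pf_LV (hPWE : T_PWE) (hPSJ : T_PSJ) (hPOA : T_POA) (hPOT : T_POT) (hPHA : T_PHA)
    (hPHB : T_PHB) (hPW2 : T_PW2) (hQI1 : T_QI1) (hQI3 : T_QI3) (hQI4 : T_QI4) (hQRN : T_QRN)
    (hBL : T_BL) : T_LV := by
  have H : Hy := ⟨hPWE, hPSJ, hPOA, hPOT, hPHA, hPHB, hPW2, hQI1, hQI3, hQI4, hQRN, hBL⟩
  intro D κ b σ c ih
  refine ⟨pv_w H c ih, ?_⟩
  intro π B ρ' h hW hSI hW' G hG X
  refine ⟨fun y => kb_iff H c ih hW hSI hW' hG X y, nn_iff H c ih hW hSI hW' hG X, ?_⟩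
  have hIw := (H.pwe b D σ B h).1 hW
  obtain ⟨nB, cB, tB, vB⟩ := obf c hIw.wo.o.o
  obtain ⟨-, p2, -⟩ := H.pot D κ c.am b c.ok π B ρ' hIw.wo.o hSI.i
    (fun j hj hc => (hSI.v j hj hc).1)
  obtain ⟨⟨-, -, him, -, -, -, -⟩, -⟩ := H.qi1 D c.am.ok _ _ π _ _ (slf c) hSI.i
  have hRR : ∀ y, (RR D (b.u (b.T π B)) (gi D π ρ' G) y ↔ RR D (b.u B) G y) := by
    intro y
    have := rrs H c hSI.i hG nB (fun _ h => h) tB y
    rw [him] at this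
    rw [p2]
    exact this
  unfold BS.Rg
  rw [nn_iff H c ih hW hSI hW' hG X]
  refine and_congr_right fun _ => exists_congr fun y => ?_
  rw [hRR y, kb_iff H c ih hW hSI hW' hG X y]

end SE.UZ
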