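import Pool.Agent.H1.UZ.TarPC

/-! # PCG: complexity of the uniformizing function -/

set_option linter.unusedVariables false

open Ordinal Order Set
open scoped ZFSet

namespace SE.UZ

open SF PSR

theorem pf_PCG (hH : T_AH) (hI : T_AI) (hW : T_PCW) (hC : T_PCC) (hE : T_PCE) (hF : T_PCF) :
    T_PCG := by
  intro M hM L hL j a ha hra
  have prlM : ∀ x y, M x → M y → M (prl x y) := by
    intro x y hx hy
    exact hI.2.2.1.1 M hM (cons x (fun _ => y)) (In.cons (fun _ => hy) hx)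
  have prlR : ∀ x y, Rl x → Rl y → Rl (prl x y) := fun x y hx hy => (hH.1 x y hx hy).1
  have k0M : M (kc 0) := (hI.2.2.2.1 0).1 M hM (fun _ => a) (fun _ => ha)
  have k0R : Rl (kc 0) := (hH.2.2.2.1 0).1
  obtain ⟨-, -, -, -, -, -, -, w8, w9⟩ := hW
  obtain ⟨wf1, wf2⟩ := w8 a hra
  obtain ⟨-, -, -, -, -, w14⟩ := w9 M hM
  obtain ⟨c0, hc0M, hc0R, hc0⟩ := hF M hM L hL j
  obtain ⟨c1, hc1M, hc1R, hc1⟩ := hC M hM (j + 3) (cwf a) (w14 a ha) wf1 c0 hc0M hc0R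
  obtain ⟨⟨b, hbM, hbR, hb⟩, -⟩ := hE M hM (j + 3) a c1 ha hra hc1M hc1R
  refine ⟨b, hbM, hbR, fun x y hx hrx hy hry => ?_⟩
  have hxyM := prlM x y hx hy
  have hxyR := prlR x y hrx hry
  rw [hb _ hxyM hxyR, hc1 _ hxyM hxyR, wf2 x y hrx hry, hc0]
  · exact prlM _ _ (prlM _ _ k0M (prlM a x ha hx)) hy
  · exact prlR _ _ (prlR _ _ k0R (prlR a x hra hrx)) hry

end SE.UZ
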