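import Pool.Agent.H72.UZ.TarZ
import Pool.Agent.H45.UZ.TarP
import Pool.Agent.H90.UZ.FRN

/-! # MP_f6fd33_lc, module Q1b: the transport of towers is in the ground model -/

set_option linter.unusedVariables false

open Ordinal Order Set
open scoped ZFSet

namespace SE.UZ

open SF FRNm

theorem pf_Q1b (hQ1a : T_Q1a) (hQI1 : T_QI1) (hQI4d : T_QI4d) (hBBa : T_BBa) (hBBb : T_BBb)
    (hBBc : T_BBc) : T_Q1b := by
  intro D κ b hK hb
  have zN : ZFm D.N := hK.ok.zfc.toZFCm.toZFm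
  have hH : ∀ x ∈ D.H, D.N x := fun x hx => zN.trans _ hK.ok.hN x hx
  have hκN : D.N κ := hH κ hK.kH
  obtain ⟨X0, Y0, Z0, nX0, -, -, hX0, -, -, -⟩ := hQ1a D κ b hK hb
  have hsl' : Sl (b.l + 2) b.S' := by
    rintro e (he | he)
    · have := hb.sl e he
      omega
    · have := hb.l3
      omega
  have him := hBBc.2.2.2.1
  have hmv := hBBc.2.2.1
  have hmvn := hQI4d.2.2.2.2.1
  have hrst := hBBa.1
  set X : V := (ZFSet.prod D.H X0).sep fun z => z = ZFSet.pair (fst z) (snd z) ∧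
    IslR (b.l + 2) b.S' D.L D.H (fst z) (b.ut κ (snd z)) (im (fst z) (b.ut κ (snd z)))
    with hX
  have mX : ∀ z, z ∈ X ↔ ∃ π T ρ', b.Tw D κ T ∧ Isl D (b.l + 2) b.S' π (b.ut κ T) ρ' ∧
      z = ZFSet.pair π T := by
    intro z
    rw [hX, ZFSet.mem_sep]
    constructor
    · rintro ⟨h1, h2, h3⟩
      rw [h2, ZFSet.pair_mem_prod] at h1
      exact ⟨fst z, snd z, _, (hX0 _).1 h1.2, (isl_iff hsl').2 ⟨hH _ h1.1, h3⟩, h2⟩
    · rintro ⟨π, T, ρ', h1, h2, rfl⟩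
      have hq := (hQI1 D hK.ok _ _ π (b.ut κ T) ρ' hsl' h2).1
      rw [fst_pair, snd_pair, ZFSet.pair_mem_prod]
      refine ⟨⟨hq.2.2.2.1, (hX0 _).2 h1⟩, rfl, ?_⟩
      have h3 : im π (b.ut κ T) = ρ' := hq.2.2.1
      rw [h3]
      exact ((isl_iff hsl').1 h2).2
  have nX : D.N X := by
    -- variables: 0 = z, 1 = X0, 2 = L, 3 = H, 4 = κ, 5 = U
    have hut : Tm ZFm (fun _ v => (⋃₀ (imS (v 4) fun ξ => app (v 5) (SF.fst (app (SF.snd (v 0)) ξ))) :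
        ZFSet)) :=
      Tm.sUnion (Tm.image (f := fun _ v => v 4)
        (g := fun _ v => app (v 6) (SF.fst (app (SF.snd (v 1)) (v 0)))) (Tm.var 4)
        (Tm.app (Tm.var 6) (Tm.fst (Tm.app (Tm.snd (Tm.var 1)) (Tm.var 0)))))
    have hR : Dfb ZFm (fun _ v => v 0 = ZFSet.pair (SF.fst (v 0)) (SF.snd (v 0)) ∧
        IslR (b.l + 2) b.S' (v 2) (v 3) (SF.fst (v 0))
          (⋃₀ (imS (v 4) fun ξ => app (v 5) (SF.fst (app (SF.snd (v 0)) ξ))) : ZFSet)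
          (im (SF.fst (v 0))
            (⋃₀ (imS (v 4) fun ξ => app (v 5) (SF.fst (app (SF.snd (v 0)) ξ))) : ZFSet))) := by
      refine (Dfb.eq (Tm.var 0) (Tm.pair (Tm.fst (Tm.var 0)) (Tm.snd (Tm.var 0)))).and ?_
      exact dfb_at5 (P := IslR (b.l + 2) b.S') (dfb_islR hBBb hBBc hQI4d (b.l + 2) b.S')
        (Tm.var 2) (Tm.var 3) (Tm.fst (Tm.var 0)) hut
        (Tm.at2 (F := fun _ x y => im x y) him (Tm.fst (Tm.var 0)) hut)
    have h := (Tm.sep hR (f := fun _ v => ZFSet.prod (v 2) (v 0))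
      (Tm.prod (Tm.var 2) (Tm.var 0))).1 D.N zN
      (cons X0 (cons D.L (cons D.H (cons κ fun _ => b.U))))
      (In.cons (In.cons (In.cons (In.cons (fun _ => hb.nU) hκN) hK.ok.hN) (hH _ hK.ok.lH)) nX0)
    exact h
  refine ⟨X, nX, mX, ?_⟩
  -- variables: 0 = X, 1 = κ, 2 = tr, 3 = U
  have hK1 : Tm ZFm (fun _ v => SF.fst (app (SF.snd (v 1)) (v 0))) :=
    Tm.fst (Tm.app (Tm.snd (Tm.var 1)) (Tm.var 0))
  have hH1 : Tm ZFm (fun _ v => SF.snd (app (SF.snd (v 1)) (v 0))) :=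
    Tm.snd (Tm.app (Tm.snd (Tm.var 1)) (Tm.var 0))
  have hmve : Tm ZFm (fun _ v => ZFSet.pair (mv (SF.fst (v 2)) (SF.fst (v 0)))
      (ZFSet.pair (mvn (SF.fst (v 2)) (SF.fst (SF.snd (v 0))))
        (ZFSet.pair (mvn (SF.fst (v 2)) (SF.fst (SF.snd (SF.snd (v 0)))))
          (SF.snd (SF.snd (SF.snd (v 0))))))) :=
    Tm.pair (Tm.at2 (F := fun _ x y => mv x y) hmv (Tm.fst (Tm.var 2)) (Tm.fst (Tm.var 0)))
      (Tm.pair (Tm.at2 (F := fun _ x y => mvn x y) hmvn (Tm.fst (Tm.var 2))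
          (Tm.fst (Tm.snd (Tm.var 0))))
        (Tm.pair (Tm.at2 (F := fun _ x y => mvn x y) hmvn (Tm.fst (Tm.var 2))
          (Tm.fst (Tm.snd (Tm.snd (Tm.var 0))))) (Tm.snd (Tm.snd (Tm.snd (Tm.var 0))))))
  have hmvh := Tm.image hH1 hmve
  have hval := Tm.pair (Tm.app (Tm.var 4) (Tm.pair (Tm.at2 (F := fun _ x y => rst x y) hrst
    (Tm.app (Tm.var 5) hK1) (Tm.fst (Tm.var 1))) hK1)) hmvh
  have h := (Tm.resS (Tm.var 0) (Tm.resS (Tm.var 2) hval)).1 D.N zN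
    (cons X (cons κ (cons b.tr fun _ => b.U)))
    (In.cons (In.cons (In.cons (fun _ => hb.nU) hb.nT) hκN) nX)
  exact h

end SE.UZ
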