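import Pool.Agent.H45.UZ.TarA

/-! # QC3: the generic filter contains one of infinitely many disjoint copies -/

set_option linter.unusedVariables false

open Ordinal Order Set
open scoped ZFSet

namespace SE.UZ

open SF

theorem pf_QC3 (hBJ : T_BJ) (hBE : T_BE) (hBC : T_BC) (hBBa : T_BBa) : T_QC3 := by
  intro D hD ρ ρ1 G Q p0 hρ hc hG h1ρ hρ1 ht1 hQ hQP hp0 hdis hinf hpG
  obtain ⟨hL, -, -, hPN, hrest⟩ := hBJ D hD
  obtain ⟨-, hrest2⟩ := hrest ρ hρ hc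
  obtain ⟨-, ⟨hGP, -, hup, -, -⟩, hmeet⟩ := hrest2 G hG
  obtain ⟨bc1, -, -, bc4, bc5, -⟩ := hBC
  have hPρ : D.N (D.P ρ) := (hPN ρ hρ).1
  have hLe : Dfb ZFm (fun _ v => Le (v 0) (v 1)) := hBBa.2.2.2.2.2.2.2.2.2.2.2.1
  have zN : ZFm D.N := hD.zfc.toZFCm.toZFm
  have hX : D.N ((D.P ρ).sep fun r => ∃ q ∈ Q, Le r q) := by
    have hR : Dfb ZFm (fun _ v => ∃ q ∈ v 2, Le (v 0) q) :=
      Dfb.bex ktr_zfm (Tm.var 2) (R := fun _ v => Le (v 1) (v 0))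
        (hLe.at2 (Tm.var 1) (Tm.var 0))
    exact (Tm.sep hR (Tm.var 0)).1 D.N zN (cons (D.P ρ) (fun _ => Q))
      (In.cons (fun _ => hQ) hPρ)
  obtain ⟨r, hrG, hrX, -⟩ := hmeet _ p0 hX hpG (by
    intro r hr hle
    have hrF := ((bc4 D.L ρ r).1 hr).1
    have hfin : ((dm r : V) : Set V).Finite := (bc1 r hrF).2.1
    have hbad : {q : V | q ∈ Q ∧ ∃ i ∈ dm r, i ∈ dm q ∧ i ∉ ρ1}.Finite := by
      have hsub : {q : V | q ∈ Q ∧ ∃ i ∈ dm r, i ∈ dm q ∧ i ∉ ρ1} ⊆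
          ⋃ i ∈ ((dm r : V) : Set V), {q : V | q ∈ Q ∧ i ∈ dm q ∧ i ∉ ρ1} := by
        rintro q ⟨hq, i, hi, hiq, hi1⟩
        exact Set.mem_biUnion (show i ∈ ((dm r : V) : Set V) from hi) ⟨hq, hiq, hi1⟩
      refine (hfin.biUnion fun i _ => ?_).subset hsub
      refine Set.Subsingleton.finite ?_
      rintro q ⟨hq, hiq, hi1⟩ q' ⟨hq', hiq', -⟩
      by_contra hne
      exact hi1 (hdis q hq q' hq' hne i hiq hiq')
    obtain ⟨q, hq, hqb⟩ : ∃ q ∈ (Q : Set V), q ∉ {q : V | q ∈ Q ∧ ∃ i ∈ dm r, i ∈ dm q ∧ i ∉ ρ1} := by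
      by_contra hcon
      push Not at hcon
      exact hinf (hbad.subset hcon)
    have hqQ : q ∈ Q := hq
    have hqP : q ∈ D.P ρ := hQP hqQ
    have hqF := ((bc4 D.L ρ q).1 hqP).1
    obtain ⟨-, e1, e2, -⟩ := bc5 ρ1 q hqF
    have hcmp : Cmp r q := by
      intro i hir hiq
      have hi1 : i ∈ ρ1 := by
        by_contra hi1
        exact hqb ⟨hqQ, i, hir, hiq, hi1⟩
      have hi0 : i ∈ dm p0 := by
        rw [← hp0 q hqQ]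
        exact (e1 i).2 ⟨hiq, hi1⟩
      have hval : app p0 i = app q i := by
        rw [← hp0 q hqQ]
        exact e2 i hi1
      obtain ⟨-, h2⟩ := hle i hi0
      rw [hval] at h2
      exact Or.inl ⟨h2.s, h2.d⟩
    obtain ⟨k1, k2, k3, -⟩ := (hBE D.L ρ q r hc hqP hr).1 hcmp
    exact ⟨jn r q, ZFSet.mem_sep.2 ⟨k1, q, hqQ, k3⟩, k1, k2⟩)
  obtain ⟨-, q, hqQ, hrq⟩ := ZFSet.mem_sep.1 hrX
  exact ⟨q, hqQ, hup r hrG q (hQP hqQ) hrq⟩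

end SE.UZ
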