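import Pool.Agent.H45.UZ.TarA

/-! # QTG: free tags -/

set_option linter.unusedVariables false

open Ordinal Order Set
open scoped ZFSet

namespace SE.UZ

open SF

theorem pf_QTG : T_QTG := by
  intro D hD X hX
  refine ⟨X, hX, fun v x j hj h => ?_⟩
  have h1 : j.rank < X.rank := ZFSet.rank_lt_of_mem hj
  have h2 : (tg j).rank ≤ j.rank :=
    (TT.rank_fst_le _).trans ((TT.rank_snd_le _).trans (TT.rank_lG_le _))
  rw [h] at h2
  have h3 : X.rank < (ZFSet.pair (ZFSet.pair X v) x).rank :=
    (rank_lt_pair_left _ _).trans (rank_lt_pair_left _ _)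
  exact lt_irrefl _ (h1.trans (h3.trans_le h2))

end SE.UZ
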