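import Pool.Agent.H38.UZ.TarZ

/-!
# MP_f6fd33_lc, Y4: step 2, the bound of the parts and of the cores `ξ + 1`
-/

set_option linter.unusedVariables false

open Ordinal Order Set
open scoped ZFSet

namespace SE.UZ

open SF

namespace Y4h

theorem cmt_symm {b : BS} {D : Cx} {s s' : Ordinal.{0}} {B h B' h' : V}
    (H : b.Cmt D s B h s' B' h') : b.Cmt D s' B' h' s B h := by
  obtain ⟨C, h0, θ, h1, h2, h3, h4⟩ := H
  refine ⟨C, h0, θ, ?_, h2, ?_, ?_⟩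
  · rw [h1]
    exact ZFSet.ext fun x => by rw [ZFSet.mem_inter, ZFSet.mem_inter, and_comm]
  · rw [min_comm]; exact h4
  · rw [min_comm]; exact h3

theorem cmt_self {b : BS} {D : Cx} {r : Ordinal.{0}} {B h : V} (h1 : His D (b.u B) h r)
    (h2 : b.LW D r B h B h) : b.Cmt D r B h r B h := by
  refine ⟨B, h, r, ?_, h1, ?_, ?_⟩
  · exact ZFSet.ext fun x => by rw [ZFSet.mem_inter, and_self]
  · rw [min_self]; exact h2
  · rw [min_self]; exact h2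

/-- the members of the family -/
def Mm (D : Cx) (b : BS) (I F ξ0 w0 ξ q I1 F1 p : V) : Prop :=
  p = q ∨ (∃ x ∈ I1, p = app F1 x) ∨
  (∃ v ∈ I, p = ZFSet.pair (tK (app F v) (insert ξ ξ))
    (hr (tH (app F v) (insert ξ ξ)) (b.rho D ξ))) ∨ (ξ0 = ξ ∧ p = w0)

end Y4h

open Y4h

theorem pf_Y4 (hY1 : T_Y1) (hY3 : T_Y3) (hA : T_A) (hA1 : T_A1) (hSM : T_SM) (hZR : T_ZR)
    (hZW : T_ZW) (hPW2 : T_PW2) (hPLW : T_PLW) (hPHA : T_PHA) : T_Y4 := by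
  intro D κ b hK hb I F Z ξ0 v0 w0 hP ξ hξ q hq Z' hZ' I1 F1 hI1
  obtain ⟨r1, r2, r3, r4, r5, r6, r7, r8⟩ := hZR D κ b hK hb
  have hξ1 : insert ξ ξ ∈ κ := (r2 ξ hξ).2.2
  have hξi : ξ ∈ insert ξ ξ := ZFSet.mem_insert_iff.2 (Or.inl rfl)
  have kN : ZFm D.N := hK.ok.zfc.toZFCm.toZFm
  have hIN : D.N I := kN.trans _ hK.ok.hN I hP.h
  have hI1N : D.N I1 := kN.trans _ hK.ok.hN I1 hI1.h
  have hκN : D.N κ := kN.trans _ hK.ok.hN κ hK.kH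
  have hξN : D.N ξ := kN.trans _ hκN _ hξ
  have hξ1N : D.N (insert ξ ξ) := kN.trans _ hκN _ hξ1
  have hrN : D.N (b.rho D ξ).toZFSet := (r6 ξ hξ).2.2.1
  have hlt : b.rho D ξ < b.rho D (insert ξ ξ) := (r6 ξ hξ).2.2.2.2.1
  have sLe : ∀ {C B : V}, b.Le C B → b.u C ⊆ b.u B := fun h => (hb.leO _ _ h).2.2
  -- the worlds of the towers
  have wv : ∀ v ∈ I, b.Wd D (b.rho D (insert ξ ξ)) (tK (app F v) (insert ξ ξ))
    (tH (app F v) (insert ξ ξ)) := fun v hv => ((hP.t v hv).w _ hξ1).w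
  have w0v : ξ0 = ξ → b.Wr D ξ w0 ∧ ∀ j ∈ b.u (fst w0), b.Co j → tm j ∈ ξ := by
    rintro rfl
    exact ⟨(hP.v hξ).2.1, (hP.v hξ).2.2.2.1⟩
  -- the members are worlds
  have hMw : ∀ p, Mm D b I F ξ0 w0 ξ q I1 F1 p → b.Wd D (b.rho D ξ) (fst p) (snd p) := by
    rintro p (rfl | ⟨x, hx, rfl⟩ | ⟨v, hv, rfl⟩ | ⟨h0, rfl⟩)
    · exact hq.w.w
    · exact (hI1.p x hx).w.w
    · rw [fst_pair, snd_pair]
      exact (hPW2 D κ hK b hb).1 _ _ _ _ hlt.le (wv v hv)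
    · exact (w0v h0).1.w
  have hMs : ∀ p, Mm D b I F ξ0 w0 ξ q I1 F1 p →
      b.Cmt D (b.rho D ξ) (fst p) (snd p) (b.rho D ξ) (fst p) (snd p) := by
    intro p hp
    have h1 := hMw p hp
    obtain ⟨⟨u1, u2, u3, u4, u5, u6, u7, u8, u9, u10, u11⟩, -⟩ := hZW D κ b hK hb _ _ _ h1
    exact cmt_self u10 ((hPLW D κ hK b hb).1 _ _ _ u1)
  -- the members are compatible
  obtain ⟨y1, y2, y3, -⟩ := hY3 D κ b hK hb I F Z ξ0 v0 w0 hP ξ hξ q hq Z' hZ' I1 F1 hI1 _ rfl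
  have hMc : ∀ p, Mm D b I F ξ0 w0 ξ q I1 F1 p → ∀ p', Mm D b I F ξ0 w0 ξ q I1 F1 p' →
      b.Cmt D (b.rho D ξ) (fst p) (snd p) (b.rho D ξ) (fst p') (snd p') := by
    intro p hp p' hp'
    have hp0 := hp
    have hs := hMs p hp
    rcases hp with rfl | ⟨x, hx, rfl⟩ | ⟨v, hv, rfl⟩ | ⟨h0, rfl⟩
    · rcases hp' with rfl | ⟨x', hx', rfl⟩ | ⟨v', hv', rfl⟩ | ⟨h0', rfl⟩
      · exact hs
      · exact (y1 x' hx').1
      · rw [fst_pair, snd_pair]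
        exact (y2 v' hv').1
      · exact y3 (h0' ▸ hξ) h0'
    · rcases hp' with rfl | ⟨x', hx', rfl⟩ | ⟨v', hv', rfl⟩ | ⟨h0', rfl⟩
      · exact cmt_symm (y1 x hx).1
      · exact (y1 x hx).2.1 x' hx'
      · rw [fst_pair, snd_pair]
        exact (y1 x hx).2.2.1 v' hv'
      · exact (y1 x hx).2.2.2 (h0' ▸ hξ) h0'
    · rcases hp' with rfl | ⟨x', hx', rfl⟩ | ⟨v', hv', rfl⟩ | ⟨h0', rfl⟩
      · rw [fst_pair, snd_pair]
        exact cmt_symm (y2 v hv).1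
      · rw [fst_pair, snd_pair]
        exact cmt_symm ((y1 x' hx').2.2.1 v hv)
      · rw [fst_pair, snd_pair, fst_pair, snd_pair]
        exact (y2 v hv).2.1 v' hv'
      · rw [fst_pair, snd_pair]
        exact cmt_symm ((y2 v hv).2.2 (h0' ▸ hξ) h0')
    · rcases hp' with rfl | ⟨x', hx', rfl⟩ | ⟨v', hv', rfl⟩ | ⟨h0', rfl⟩
      · exact cmt_symm (y3 (h0 ▸ hξ) h0)
      · exact cmt_symm ((y1 x' hx').2.2.2 (h0 ▸ hξ) h0)
      · rw [fst_pair, snd_pair]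
        exact (y2 v' hv').2.2 (h0 ▸ hξ) h0
      · exact hs
  -- the index set
  obtain ⟨sm1, sm2, sm3⟩ := hSM
  obtain ⟨smN, smH, sfN⟩ := sm3 D hK.ok
  have h0H : (∅ : V) ∈ D.H := (r2 ∅ hK.zero).1
  have h1H : ({∅} : V) ∈ D.H := by
    have h1 := (r2 ∅ hK.zero).2.2
    have h2 := (r2 _ h1).1
    have h3 : (insert ∅ ∅ : V) = {∅} := ZFSet.ext fun x => by
      rw [ZFSet.mem_insert_iff, ZFSet.mem_singleton]
      exact ⟨fun h => h.elim id fun h => absurd h (ZFSet.notMem_empty _), Or.inl⟩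
    rwa [h3] at h2
  obtain ⟨E, hEH, hE⟩ : ∃ E ∈ D.H, ∀ x, x ∈ E ↔ x = ∅ ∧ ξ0 = ξ := by
    by_cases h : ξ0 = ξ
    · exact ⟨{∅}, h1H, fun x => by rw [ZFSet.mem_singleton]; exact ⟨fun h' => ⟨h', h⟩, And.left⟩⟩
    · exact ⟨∅, h0H, fun x => ⟨fun h' => absurd h' (ZFSet.notMem_empty _), fun h' => absurd h'.2 h⟩⟩
  obtain ⟨w1, hw1N, hw1⟩ : ∃ w1, D.N w1 ∧ (ξ0 = ξ → w1 = w0) := by
    by_cases h : ξ0 = ξ
    · have h1 := (w0v h).1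
      obtain ⟨⟨u1, u2, u3, u4, u5, u6, u7, u8, u9, u10, u11⟩, -⟩ := hZW D κ b hK hb _ _ _ h1.w
      refine ⟨w0, ?_, fun _ => rfl⟩
      rw [h1.pr]
      exact (Tm.pair (Tm.var 0) (Tm.var 1)).1 D.N kN (cons (fst w0) fun _ => snd w0)
        (In.cons (fun _ => u9) u8)
    · exact ⟨∅, kN.trans _ hK.ok.hN _ h0H, fun h' => absurd h' h⟩
  have hqN : D.N q := by
    obtain ⟨⟨u1, u2, u3, u4, u5, u6, u7, u8, u9, u10, u11⟩, -⟩ := hZW D κ b hK hb _ _ _ hq.w.w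
    rw [hq.w.pr]
    exact (Tm.pair (Tm.var 0) (Tm.var 1)).1 D.N kN (cons (fst q) fun _ => snd q)
      (In.cons (fun _ => u9) u8)
  have hEN : D.N E := kN.trans _ hK.ok.hN E hEH
  have h1N : D.N ({∅} : V) := kN.trans _ hK.ok.hN _ h1H
  have cst : ∀ A c : V, D.N A → D.N c → D.N (resS A fun _ => c) := fun A c hA hc =>
    (Tm.resS (Tm.var 0) (Tm.var 2)).1 D.N kN (cons A fun _ => c) (In.cons (fun _ => hc) hA)
  have hWTN : D.N (resS I fun v => ZFSet.pair (tK (app F v) (insert ξ ξ))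
      (hr (tH (app F v) (insert ξ ξ)) (b.rho D ξ))) := by
    have t1 : Tm ZFm (fun _ (e : ℕ → V) => app (app (e 2) (e 0)) (e 3)) :=
      Tm.app (Tm.app (Tm.var 2) (Tm.var 0)) (Tm.var 3)
    exact (Tm.resS (Tm.var 0) (Tm.pair (Tm.fst t1) (Tm.sep
      (Dfb.mem (Tm.snd (Tm.snd (Tm.snd (Tm.var 0)))) (Tm.var 5)) (Tm.snd t1)))).1 D.N kN
      (cons I (cons F (cons (insert ξ ξ) fun _ => (b.rho D ξ).toZFSet)))
      (In.cons (In.cons (In.cons (fun _ => hrN) hξ1N) hP.n) hIN)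
  have hJN := smH _ _ h1H (smH _ _ hI1.h (smH _ _ hP.h hEH))
  set J1 : V := sm I E with hJ1
  set J2 : V := sm I1 J1 with hJ2
  set J : V := sm {∅} J2 with hJ
  have hJH : J ∈ D.H := hJN
  have hJN' : D.N J := kN.trans _ hK.ok.hN _ hJH
  have hJ1N : D.N J1 := smN _ _ hIN hEN
  have hJ2N : D.N J2 := smN _ _ hI1N hJ1N
  set WT : V := resS I fun v => ZFSet.pair (tK (app F v) (insert ξ ξ))
      (hr (tH (app F v) (insert ξ ξ)) (b.rho D ξ)) with hWT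
  set W1 : V := sf I E WT (resS E fun _ => w1) with hW1
  set W2 : V := sf I1 J1 F1 W1 with hW2
  set W : V := sf {∅} J2 (resS {∅} fun _ => q) W2 with hW
  have hW1N : D.N W1 := sfN _ _ _ _ hIN hEN hWTN (cst _ _ hEN hw1N)
  have hW2N : D.N W2 := sfN _ _ _ _ hI1N hJ1N hI1.n hW1N
  have hWN : D.N W := sfN _ _ _ _ h1N hJ2N (cst _ _ h1N hqN) hW2N
  -- values of the function `W`
  have m0 : (∅ : V) ∈ ({∅} : V) := ZFSet.mem_singleton.2 rfl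
  have a0 : app W (ZFSet.pair (nS 0) ∅) = q := by
    rw [hW, (sm2 _ _ _ _).1 _ m0, app_resS m0]
  have b0 : ZFSet.pair (nS 0) ∅ ∈ J := (sm1 _ _ _).2 (Or.inl ⟨∅, m0, rfl⟩)
  have b1 : ∀ x ∈ I1, ZFSet.pair (nS 0) x ∈ J2 := fun x hx => (sm1 _ _ _).2 (Or.inl ⟨x, hx, rfl⟩)
  have b2 : ∀ x ∈ I, ZFSet.pair (nS 0) x ∈ J1 := fun x hx => (sm1 _ _ _).2 (Or.inl ⟨x, hx, rfl⟩)
  have c1 : ∀ x ∈ J2, ZFSet.pair (nS 1) x ∈ J := fun x hx => (sm1 _ _ _).2 (Or.inr ⟨x, hx, rfl⟩)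
  have c2 : ∀ x ∈ J1, ZFSet.pair (nS 1) x ∈ J2 := fun x hx => (sm1 _ _ _).2 (Or.inr ⟨x, hx, rfl⟩)
  have c3 : ∀ x ∈ E, ZFSet.pair (nS 1) x ∈ J1 := fun x hx => (sm1 _ _ _).2 (Or.inr ⟨x, hx, rfl⟩)
  have d1 : ∀ x ∈ J2, app W (ZFSet.pair (nS 1) x) = app W2 x := fun x hx =>
    (sm2 _ _ _ _).2 x hx
  have a1 : ∀ x ∈ I1, app W2 (ZFSet.pair (nS 0) x) = app F1 x := fun x hx =>
    (sm2 _ _ _ _).1 x hx
  have d2 : ∀ x ∈ J1, app W2 (ZFSet.pair (nS 1) x) = app W1 x := fun x hx =>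
    (sm2 _ _ _ _).2 x hx
  have a2 : ∀ v ∈ I, app W1 (ZFSet.pair (nS 0) v) = ZFSet.pair (tK (app F v) (insert ξ ξ))
      (hr (tH (app F v) (insert ξ ξ)) (b.rho D ξ)) := fun v hv => by
    rw [hW1, (sm2 _ _ _ _).1 v hv, hWT, app_resS hv]
  have a3 : ∀ x ∈ E, app W1 (ZFSet.pair (nS 1) x) = w0 := fun x hx => by
    rw [hW1, (sm2 _ _ _ _).2 x hx, app_resS hx]
    exact hw1 ((hE x).1 hx).2
  have hJm : ∀ z ∈ J, Mm D b I F ξ0 w0 ξ q I1 F1 (app W z) := by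
    intro z hz
    rcases (sm1 _ _ _).1 hz with ⟨x, hx, rfl⟩ | ⟨x, hx, rfl⟩
    · rw [ZFSet.mem_singleton.1 hx, a0]
      exact Or.inl rfl
    · rw [d1 x hx]
      rcases (sm1 _ _ _).1 hx with ⟨y, hy, rfl⟩ | ⟨y, hy, rfl⟩
      · rw [a1 y hy]
        exact Or.inr (Or.inl ⟨y, hy, rfl⟩)
      · rw [d2 y hy]
        rcases (sm1 _ _ _).1 hy with ⟨v, hv, rfl⟩ | ⟨v, hv, rfl⟩
        · rw [a2 v hv]
          exact Or.inr (Or.inr (Or.inl ⟨v, hv, rfl⟩))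
        · rw [a3 v hv]
          exact Or.inr (Or.inr (Or.inr ⟨((hE v).1 hv).2, rfl⟩))
  have hJs : ∀ p, Mm D b I F ξ0 w0 ξ q I1 F1 p → ∃ z ∈ J, app W z = p := by
    rintro p (rfl | ⟨x, hx, rfl⟩ | ⟨v, hv, rfl⟩ | ⟨h0, rfl⟩)
    · exact ⟨_, b0, a0⟩
    · exact ⟨_, c1 _ (b1 x hx), by rw [d1 _ (b1 x hx), a1 x hx]⟩
    · exact ⟨_, c1 _ (c2 _ (b2 v hv)), by rw [d1 _ (c2 _ (b2 v hv)), d2 _ (b2 v hv), a2 v hv]⟩
    · have h1 : (∅ : V) ∈ E := (hE ∅).2 ⟨rfl, h0⟩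
      exact ⟨_, c1 _ (c2 _ (c3 _ h1)), by rw [d1 _ (c2 _ (c3 _ h1)), d2 _ (c3 _ h1), a3 _ h1]⟩
  -- the functions `B`, `h`
  set Bf : V := resS J fun z => fst (app W z) with hBf
  set Hf : V := resS J fun z => snd (app W z) with hHf
  have hBN : D.N Bf := (Tm.resS (Tm.var 0) (Tm.fst (Tm.app (Tm.var 2) (Tm.var 0)))).1 D.N kN
    (cons J fun _ => W) (In.cons (fun _ => hWN) hJN')
  have hHN : D.N Hf := (Tm.resS (Tm.var 0) (Tm.snd (Tm.app (Tm.var 2) (Tm.var 0)))).1 D.N kN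
    (cons J fun _ => W) (In.cons (fun _ => hWN) hJN')
  have eB : ∀ z ∈ J, app Bf z = fst (app W z) := fun z hz => app_resS hz
  have eH : ∀ z ∈ J, app Hf z = snd (app W z) := fun z hz => app_resS hz
  have hwd : ∀ z ∈ J, b.Wd D (b.rho D ξ) (app Bf z) (app Hf z) := by
    intro z hz
    rw [eB z hz, eH z hz]
    exact hMw _ (hJm z hz)
  obtain ⟨x1, x2⟩ := hY1 D κ b hK hb J Bf Hf (fun _ => b.rho D ξ) hJN' hBN hHN hwd (by
    intro z hz z' hz'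
    rw [eB z hz, eH z hz, eB z' hz', eH z' hz']
    exact hMc _ (hJm z hz) _ (hJm z' hz'))
  obtain ⟨Bp, ob, hR, hnew⟩ := x1 hJH Z' hZ'.h
  have hLe : ∀ z ∈ J, b.Le (app Bf z) Bp := fun z hz => (hb.rc _ _ (hR z hz)).1
  have hco : ∀ j ∈ b.u Bp, b.Co j → ∃ v ∈ J, j ∈ b.u (app Bf v) := by
    intro j hj hc
    by_contra hcon
    obtain ⟨⟨e, he, hk⟩, -⟩ := hnew j hj (fun v hv hjv => hcon ⟨v, hv, hjv⟩)
    have h1 : kd j = nS b.l := hc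
    rw [hk] at h1
    exact absurd (nS_inj.1 h1) he.ne
  have hAF := hA1 D κ b _ ⟨hK, hb, hrN⟩ J Bf Hf Bp hJN' hBN hHN ob
    (fun z hz => ⟨hwd z hz, hLe z hz⟩)
    (fun G hG v hv v' hv' X hX y e he => x2 Bp ob hLe G hG v hv v' hv' X hX y e he he) hco
  obtain ⟨hp, hw, hl⟩ := hA D κ b _ ⟨hK, hb, hrN⟩ J Bf Hf _ Bp hAF
  -- every member is a face
  have hfc : ∀ p, Mm D b I F ξ0 w0 ξ q I1 F1 p → b.LW D (b.rho D ξ) (fst p) (snd p) Bp hp ∧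
      b.Ri (fst p) Bp := by
    intro p hp'
    obtain ⟨z, hz, rfl⟩ := hJs p hp'
    have h1 := hl z hz
    have h2 := hR z hz
    rw [eB z hz] at h1 h2
    rw [eH z hz] at h1
    exact ⟨h1, h2⟩
  -- labels
  have hlab : ∀ i ∈ b.u Bp, (∃ p, Mm D b I F ξ0 w0 ξ q I1 F1 p ∧ i ∈ b.u (fst p)) ∨
      (Kl b.l i ∧ i ∉ Z') := by
    intro i hi
    by_cases h : ∃ p, Mm D b I F ξ0 w0 ξ q I1 F1 p ∧ i ∈ b.u (fst p)
    · exact Or.inl h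
    · refine Or.inr (hnew i hi fun z hz hiz => h ⟨app W z, hJm z hz, ?_⟩)
      rwa [eB z hz] at hiz
  obtain ⟨⟨u1, u2, u3, u4, u5, u6, u7, u8, u9, u10, u11⟩, -⟩ := hZW D κ b hK hb _ _ _ hw
  have hh := (hPHA D hK.ok _ _ _ _ u5 u7 u5 u7 (fun x hx => hx) u10).2.1 (b.rho D ξ)
  have hhr : hr hp (b.rho D ξ) = hp := hh.2.2.1 le_rfl
  refine ⟨ZFSet.pair Bp hp, ⟨?_, ?_⟩, ?_, ?_, ?_, ?_, ?_, ?_⟩
  · rw [fst_pair, snd_pair]
  · rw [fst_pair, snd_pair]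
    exact hw
  · rw [fst_pair]
    intro j hj hc
    rcases hlab j hj with ⟨p, hp', hjp⟩ | ⟨⟨e, he, hk⟩, -⟩
    · rcases hp' with rfl | ⟨x, hx, rfl⟩ | ⟨v, hv, rfl⟩ | ⟨h0, rfl⟩
      · exact ZFSet.mem_insert_iff.2 (Or.inr (hq.tm j hjp hc))
      · exact (hI1.p x hx).tm j hjp hc
      · rw [fst_pair] at hjp
        exact (hP.t v hv).tm _ hξ1 j hjp hc
      · exact ZFSet.mem_insert_iff.2 (Or.inr ((w0v h0).2 j hjp hc))
    · have h1 : kd j = nS b.l := hc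
      rw [hk] at h1
      exact absurd (nS_inj.1 h1) he.ne
  · constructor
    · show b.LW D _ _ _ _ _
      rw [fst_pair, snd_pair]
      exact (hfc q (Or.inl rfl)).1
    · rw [fst_pair]
      exact (hfc q (Or.inl rfl)).2
  · intro x hx
    show b.LW D _ _ _ _ _
    rw [fst_pair, snd_pair]
    exact (hfc _ (Or.inr (Or.inl ⟨x, hx, rfl⟩))).1
  · intro v hv
    show b.LW D _ _ _ _ _
    rw [fst_pair, snd_pair]
    have h1 := (hfc _ (Or.inr (Or.inr (Or.inl ⟨v, hv, rfl⟩)))).1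
    rw [fst_pair, snd_pair] at h1
    have h2 := (hPLW D κ hK b hb).2.2.2.1 (b.rho D (insert ξ ξ)) (b.rho D ξ) (b.rho D ξ)
      (b.rho D ξ) (b.rho D ξ) (tK (app F v) (insert ξ ξ)) (tH (app F v) (insert ξ ξ)) Bp hp
    obtain ⟨⟨-, -, -, -, -, -, -, -, -, v10, -⟩, -⟩ := hZW D κ b hK hb _ _ _ (wv v hv)
    have h3 := h2 v10 u10 le_rfl le_rfl
    rw [hhr] at h3
    exact h3.1 h1
  · intro _ h0
    show b.LW D _ _ _ _ _
    rw [fst_pair, snd_pair]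
    exact (hfc _ (Or.inr (Or.inr (Or.inr ⟨h0, rfl⟩)))).1
  · rw [fst_pair]
    intro i hi
    rcases hlab i hi with ⟨p, hp', hjp⟩ | h
    · rcases hp' with rfl | ⟨x, hx, rfl⟩ | ⟨v, hv, rfl⟩ | ⟨h0, rfl⟩
      · exact Or.inl hjp
      · exact Or.inr (Or.inl ⟨x, hx, hjp⟩)
      · rw [fst_pair] at hjp
        exact Or.inr (Or.inr (Or.inl ⟨v, hv, hjp⟩))
      · exact Or.inr (Or.inr (Or.inr (Or.inl ⟨h0 ▸ hξ, h0, hjp⟩)))
    · exact Or.inr (Or.inr (Or.inr (Or.inr h)))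

end SE.UZ
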